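import Mathlib

namespace Pool.Agent.P.MP_06afd2_nt

/-- the sequence `a_0(n) = n`, `a_{k+1}(n) = a_k(n)^2 - 1` -/
def seq (n : ℤ) : ℕ → ℤ
  | 0 => n
  | k + 1 => seq n k ^ 2 - 1

/-- `P n` is the set of primes dividing some term of the sequence started at `n` -/
def P (n : ℕ) : Set ℕ := {p : ℕ | p.Prime ∧ ∃ k : ℕ, (p : ℤ) ∣ seq n k}

end Pool.Agent.P.MP_06afd2_nt
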