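import Pool.Agent.P.MP_06afd2_nt.Defs
import Pool.Agent.Lib.PNT.PrimeSums

namespace Pool.Agent.P.MP_06afd2_nt

open Finset Filter Topology

theorem seq_succ' (n : ℤ) (k : ℕ) : seq n (k + 1) = seq (n ^ 2 - 1) k := by
  induction k with
  | zero => rfl
  | succ k ih => rw [seq, ih, seq]

theorem dvd_of_seq {p : ℕ} (hp : p.Prime) (h8 : p % 8 = 3 ∨ p % 8 = 5) (k : ℕ) :
    ∀ n : ℤ, (p : ℤ) ∣ seq n k → (p : ℤ) ∣ n + 1 ∨ (p : ℤ) ∣ n ∨ (p : ℤ) ∣ n - 1 := by
  have hp' : Prime (p : ℤ) := Nat.prime_iff_prime_int.1 hp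
  induction k with
  | zero => intro n h; exact Or.inr (Or.inl h)
  | succ k ih =>
    intro n h
    rw [seq_succ'] at h
    rcases ih _ h with h | h | h
    · rw [show n ^ 2 - 1 + 1 = n ^ 2 by ring] at h
      exact Or.inr (Or.inl (hp'.dvd_of_dvd_pow h))
    · rw [show n ^ 2 - 1 = (n + 1) * (n - 1) by ring] at h
      rcases hp'.dvd_or_dvd h with h | h
      · exact Or.inl h
      · exact Or.inr (Or.inr h)
    · exfalso
      have : Fact p.Prime := ⟨hp⟩
      have h2 : IsSquare (2 : ZMod p) := by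
        refine ⟨(n : ZMod p), ?_⟩
        have := (ZMod.intCast_zmod_eq_zero_iff_dvd _ p).2 h
        push_cast at this
        linear_combination -this
      have := (ZMod.exists_sq_eq_two_iff (by rintro rfl; omega)).1 h2
      omega

theorem mem_P_iff {p : ℕ} (hp : p.Prime) (h8 : p % 8 = 3 ∨ p % 8 = 5) (n : ℕ) :
    p ∈ P n ↔ ∃ i : ℤ, -1 ≤ i ∧ i ≤ 1 ∧ (p : ℤ) ∣ (n : ℤ) - i := by
  constructor
  · rintro ⟨-, k, hk⟩
    rcases dvd_of_seq hp h8 k _ hk with h | h | h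
    · exact ⟨-1, by norm_num, by norm_num, by simpa using h⟩
    · exact ⟨0, by norm_num, by norm_num, by simpa using h⟩
    · exact ⟨1, by norm_num, by norm_num, h⟩
  · rintro ⟨i, h1, h2, h⟩
    refine ⟨hp, ?_⟩
    interval_cases i
    · exact ⟨1, by
        rw [show seq n 1 = ((n : ℤ) - -1) * (n - 1) by simp only [seq]; ring]
        exact h.mul_right _⟩
    · exact ⟨0, by simpa [seq] using h⟩
    · exact ⟨1, by
        rw [show seq n 1 = ((n : ℤ) - 1) * (n + 1) by simp only [seq]; ring]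
        exact h.mul_right _⟩

theorem new_class {n q q' : ℕ} (hn : n % 10 = 4) (hq : q.Prime) (hq' : q'.Prime)
    (h8 : q % 8 = 3 ∨ q % 8 = 5) (h8' : q' % 8 = 3 ∨ q' % 8 = 5) {i k : ℤ} (hi : -1 ≤ i)
    (hi' : i ≤ 1) (hk : -1 ≤ k) (hk' : k ≤ 1) (hik : i ≠ k) (h1 : (q : ℤ) ∣ (n : ℤ) - i)
    (h2 : (q' : ℤ) ∣ (n : ℤ) - k) (hbig : 4 * n + 4 < q * q') (m : ℕ) (hm : 2 ≤ m)
    (hmn : m < n) : P m ≠ P n := by
  intro e
  obtain ⟨j, hj, hj', h3⟩ := (mem_P_iff hq h8 m).1 (e ▸ (mem_P_iff hq h8 n).2 ⟨i, hi, hi', h1⟩)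
  obtain ⟨l, hl, hl', h4⟩ :=
    (mem_P_iff hq' h8' m).1 (e ▸ (mem_P_iff hq' h8' n).2 ⟨k, hk, hk', h2⟩)
  obtain ⟨r, hr, hr', h5⟩ := (mem_P_iff (p := 5) (by norm_num) (by norm_num) m).1
    (e ▸ (mem_P_iff (p := 5) (by norm_num) (by norm_num) n).2
      ⟨-1, by norm_num, by norm_num, by push_cast; omega⟩)
  have hne : q ≠ q' := by
    rintro rfl
    have h6 : (q : ℤ) ∣ k - i := by
      have := dvd_sub h1 h2
      rwa [show (n : ℤ) - i - (n - k) = k - i by ring] at this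
    have := Int.le_of_dvd (abs_pos.2 (sub_ne_zero.2 hik.symm)) ((dvd_abs _ _).2 h6)
    have : |k - i| ≤ 2 := abs_le.2 ⟨by omega, by omega⟩
    omega
  have hc : IsCoprime (q : ℤ) (q' : ℤ) :=
    Nat.isCoprime_iff_coprime.2 ((Nat.coprime_primes hq hq').2 hne)
  have d1 : (q : ℤ) ∣ (k - i) * (m - j) - (l - j) * (n - i) :=
    dvd_sub (h3.mul_left _) (h1.mul_left _)
  have d2 : (q' : ℤ) ∣ (k - i) * (m - j) - (l - j) * (n - i) := by
    rw [show (k - i) * (m - j) - (l - j) * (n - i) = (k - i) * (m - l) - (l - j) * (n - k) by ring]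
    exact dvd_sub (h4.mul_left _) (h2.mul_left _)
  have hbig' : 4 * (n : ℤ) + 4 < q * q' := by exact_mod_cast hbig
  have h0 : (k - i) * (m - j) - (l - j) * (n - i) = 0 := by
    refine Int.eq_zero_of_abs_lt_dvd (hc.mul_dvd d1 d2) (lt_of_le_of_lt ?_ hbig')
    rw [abs_le]
    interval_cases i <;> interval_cases k <;> interval_cases j <;> interval_cases l <;>
      constructor <;> omega
  push_cast at h5
  interval_cases i <;> interval_cases k <;> interval_cases j <;> interval_cases l <;> omega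

/-- primes congruent to 3 or 5 modulo 8 -/
def Good (p : ℕ) : Prop := p.Prime ∧ (p % 8 = 3 ∨ p % 8 = 5)

instance : DecidablePred Good := fun _ => inferInstanceAs (Decidable (_ ∧ _))

theorem block_tendsto {r : ZMod 8} (hr : IsUnit r) :
    Tendsto (fun t : ℕ => ∑ p ∈ (Ioc (2 ^ t) (2 ^ (t + 1))).filter
      (fun p : ℕ => p.Prime ∧ (p : ZMod 8) = r), Real.log p / p) atTop (𝓝 (Real.log 2 / 4)) := by
  have h := Lib.PNT.prime_sum_AP_tendsto hr (α := 1) (β := 2) (by norm_num) (by norm_num)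
    (f := fun x => x⁻¹) (M := 1)
    (fun x hx => by
      rw [abs_of_pos (inv_pos.2 (by linarith [hx.1]))]
      exact inv_le_one_of_one_le₀ hx.1.le)
    (Eventually.of_forall fun x hx => continuousAt_inv₀ (by linarith [hx.1]))
  have e : ((Nat.totient 8 : ℕ) : ℝ)⁻¹ * ∫ x in (1 : ℝ)..2, x⁻¹ = Real.log 2 / 4 := by
    rw [integral_inv_of_pos (by norm_num) (by norm_num), show Nat.totient 8 = 4 by decide]
    norm_num
    ring
  rw [e] at h
  refine (h.comp (tendsto_pow_atTop_atTop_of_one_lt (r := (2 : ℝ)) (by norm_num))).congr ?_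
  intro t
  have a : ⌊(1 : ℝ) * 2 ^ t⌋₊ = 2 ^ t := by
    rw [one_mul]; exact_mod_cast Nat.floor_natCast (R := ℝ) (2 ^ t)
  have b : ⌊(2 : ℝ) * 2 ^ t⌋₊ = 2 ^ (t + 1) := by
    rw [← pow_succ']; exact_mod_cast Nat.floor_natCast (R := ℝ) (2 ^ (t + 1))
  simp only [Function.comp, a, b]
  rw [sum_div]
  refine sum_congr rfl fun p _ => ?_
  field_simp

theorem block_lower : ∀ᶠ t : ℕ in atTop,
    (0.499 : ℝ) / (t + 1) ≤ ∑ p ∈ (Ioc (2 ^ t) (2 ^ (t + 1))).filter Good, (1 : ℝ) / p := by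
  have hl : 0 < Real.log 2 := Real.log_pos (by norm_num)
  have h := (block_tendsto (r := 3) (by decide)).add (block_tendsto (r := 5) (by decide))
  filter_upwards [(tendsto_order.1 h).1 (0.499 * Real.log 2) (by linarith)] with t ht
  rw [← sum_union] at ht
  swap
  · rw [disjoint_filter]
    rintro p - ⟨-, h1⟩ ⟨-, h2⟩
    rw [h1] at h2
    exact absurd h2 (by decide)
  have e : (Ioc (2 ^ t) (2 ^ (t + 1))).filter (fun p : ℕ => p.Prime ∧ (p : ZMod 8) = 3) ∪
      (Ioc (2 ^ t) (2 ^ (t + 1))).filter (fun p : ℕ => p.Prime ∧ (p : ZMod 8) = 5) =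
      (Ioc (2 ^ t) (2 ^ (t + 1))).filter Good := by
    rw [← filter_or]
    refine filter_congr fun p _ => ?_
    have a : (p : ZMod 8) = 3 ↔ p % 8 = 3 := ZMod.natCast_eq_natCast_iff' p 3 8
    have b : (p : ZMod 8) = 5 ↔ p % 8 = 5 := ZMod.natCast_eq_natCast_iff' p 5 8
    rw [a, b, Good]; tauto
  rw [e] at ht
  have h2 : ∑ p ∈ (Ioc (2 ^ t) (2 ^ (t + 1))).filter Good, Real.log p / p ≤
      ∑ p ∈ (Ioc (2 ^ t) (2 ^ (t + 1))).filter Good, ((t + 1) * Real.log 2) * ((1 : ℝ) / p) := by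
    refine sum_le_sum fun p hp => ?_
    obtain ⟨hp1, hp2⟩ := mem_filter.1 hp
    have p0 : (0 : ℝ) < p := by exact_mod_cast hp2.1.pos
    rw [mul_one_div]
    apply div_le_div_of_nonneg_right _ p0.le
    have : (p : ℝ) ≤ 2 ^ (t + 1) := by exact_mod_cast (mem_Ioc.1 hp1).2
    have := Real.log_le_log p0 this
    rw [Real.log_pow] at this
    push_cast at this
    exact this
  rw [← mul_sum] at h2
  rw [div_le_iff₀ (by positivity)]
  nlinarith

theorem range_lower : ∃ t0 : ℕ, ∀ a, t0 ≤ a → ∀ d : ℕ,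
    (0.499 : ℝ) * Real.log (((a + d : ℕ) + 1) / ((a : ℝ) + 1)) ≤
      ∑ p ∈ (Ioc (2 ^ a) (2 ^ (a + d))).filter Good, (1 : ℝ) / p := by
  obtain ⟨t0, ht0⟩ := eventually_atTop.1 block_lower
  refine ⟨t0, fun a ha d => ?_⟩
  induction d with
  | zero =>
    have : ((a : ℝ) + 1) / (a + 1) = 1 := div_self (by positivity)
    simp [this]
  | succ d ih =>
    have h := ht0 (a + d) (by omega)
    rw [sum_filter] at ih h ⊢
    rw [← add_assoc, ← sum_Ioc_consecutive _ (Nat.pow_le_pow_right (by norm_num) (Nat.le_add_right a d))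
      (Nat.pow_le_pow_right (by norm_num) (Nat.le_succ (a + d)))]
    have e : Real.log ((((a + d + 1 : ℕ) : ℝ) + 1) / ((a : ℝ) + 1)) =
        Real.log ((((a + d : ℕ) : ℝ) + 1) / ((a : ℝ) + 1)) +
          Real.log ((((a + d : ℕ) : ℝ) + 2) / (((a + d : ℕ) : ℝ) + 1)) := by
      rw [← Real.log_mul (by positivity) (by positivity)]
      congr 1
      push_cast
      field_simp
      ring
    have h2 : Real.log ((((a + d : ℕ) : ℝ) + 2) / (((a + d : ℕ) : ℝ) + 1)) ≤
        1 / (((a + d : ℕ) : ℝ) + 1) := by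
      refine (Real.log_le_sub_one_of_pos (by positivity)).trans (le_of_eq ?_)
      field_simp
      ring
    rw [e]
    have h3 : (0.499 : ℝ) / (((a + d : ℕ) : ℝ) + 1) = 0.499 * (1 / (((a + d : ℕ) : ℝ) + 1)) := by
      ring
    linarith

theorem count_dvd {q : ℕ} (hq : q.Prime) (h5 : 5 < q) (c T : ℕ) :
    T / q ≤ ((range T).filter (fun t => q ∣ 10 * t + c)).card := by
  have : Fact q.Prime := ⟨hq⟩
  have h10 : (10 : ZMod q) ≠ 0 := by
    intro h
    have h' : q ∣ 2 * 5 := (ZMod.natCast_eq_zero_iff 10 q).1 (by exact_mod_cast h)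
    rcases (Nat.Prime.dvd_mul hq).1 h' with h | h
    · have := Nat.le_of_dvd (by norm_num) h; omega
    · have := Nat.le_of_dvd (by norm_num) h; omega
  set t0 := (-(c : ZMod q) / 10).val with ht0
  have hlt : t0 < q := ZMod.val_lt _
  have hd : q ∣ 10 * t0 + c := by
    rw [← ZMod.natCast_eq_zero_iff]
    push_cast
    rw [ht0, ZMod.natCast_zmod_val]
    field_simp
    ring
  conv_lhs => rw [← card_range (T / q)]
  refine card_le_card_of_injOn (fun j => t0 + q * j) ?_ ?_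
  · intro j hj
    simp only [coe_filter, mem_range, Set.mem_ofPred_eq, coe_range, Set.mem_Iio] at hj ⊢
    constructor
    · calc t0 + q * j < q * (j + 1) := by linarith
        _ ≤ q * (T / q) := Nat.mul_le_mul_left _ hj
        _ ≤ T := Nat.mul_div_le _ _
    · rw [show 10 * (t0 + q * j) + c = (10 * t0 + c) + q * (10 * j) by ring]
      exact dvd_add hd (dvd_mul_right _ _)
  · intro j _ j' _ h
    simpa [hq.ne_zero] using h

theorem count_main (X : ℕ) (Q : Finset ℕ) (hQ : ∀ q ∈ Q, Good q ∧ 5 < q)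
    (hbig : ∀ q ∈ Q, ∀ q' ∈ Q, 4 * X + 4 < q * q') :
    3 * ∑ q ∈ Q, X / 10 / q ≤ X / 10 +
      2 * {n : ℕ | 2 ≤ n ∧ n ≤ X ∧ ∀ m : ℕ, 2 ≤ m → m < n → P m ≠ P n}.ncard := by
  classical
  set T := X / 10 with hT
  let g : ℕ → ℕ → ℕ := fun t c => (Q.filter (fun q => q ∣ 10 * t + c)).card
  have h1 : ∀ c, ∑ q ∈ Q, T / q ≤ ∑ t ∈ range T, g t c := by
    intro c
    calc ∑ q ∈ Q, T / q ≤ ∑ q ∈ Q, ((range T).filter (fun t => q ∣ 10 * t + c)).card :=
          sum_le_sum fun q hq => count_dvd (hQ q hq).1.1 (hQ q hq).2 c T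
      _ = _ := by
          simp only [g, card_filter]
          exact sum_comm
  have h2 : ∀ t ∈ range T, ∀ c, 0 < c → c ≤ 5 → g t c ≤ 1 := by
    intro t ht c hc0 hc
    apply card_le_one.2
    intro q hq q' hq'
    by_contra hne
    obtain ⟨a1, a2⟩ := mem_filter.1 hq
    obtain ⟨b1, b2⟩ := mem_filter.1 hq'
    have := Nat.le_of_dvd (by omega) (Nat.Coprime.mul_dvd_of_dvd_of_dvd
      ((Nat.coprime_primes (hQ q a1).1.1 (hQ q' b1).1.1).2 hne) a2 b2)
    have := hbig q a1 q' b1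
    have := mem_range.1 ht
    omega
  let B := (range T).filter (fun t => ∀ m : ℕ, 2 ≤ m → m < 10 * t + 4 → P m ≠ P (10 * t + 4))
  have h3 : ∀ t ∈ range T, ∀ c c', 3 ≤ c → c ≤ 5 → 3 ≤ c' → c' ≤ 5 → c ≠ c' → 0 < g t c →
      0 < g t c' → t ∈ B := by
    intro t ht c c' c1 c2 c3 c4 hcc p1 p2
    obtain ⟨q, hq⟩ := card_pos.1 p1
    obtain ⟨q', hq'⟩ := card_pos.1 p2
    obtain ⟨a1, a2⟩ := mem_filter.1 hq
    obtain ⟨b1, b2⟩ := mem_filter.1 hq'
    refine mem_filter.2 ⟨ht, ?_⟩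
    have := hbig q a1 q' b1
    have := mem_range.1 ht
    refine new_class (q := q) (q' := q') (i := 4 - c) (k := 4 - c') (by omega) (hQ q a1).1.1
      (hQ q' b1).1.1 (hQ q a1).1.2 (hQ q' b1).1.2 (by omega) (by omega) (by omega) (by omega)
      (by omega) ?_ ?_ (by omega)
    · have := Int.natCast_dvd_natCast.2 a2
      convert this using 1
      push_cast; ring
    · have := Int.natCast_dvd_natCast.2 b2
      convert this using 1
      push_cast; ring
  have h4 : ∑ t ∈ range T, (g t 3 + g t 4 + g t 5) ≤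
      ∑ t ∈ range T, (1 + 2 * (if t ∈ B then 1 else 0)) := by
    refine sum_le_sum fun t ht => ?_
    have a3 := h2 t ht 3 (by norm_num) (by norm_num)
    have a4 := h2 t ht 4 (by norm_num) (by norm_num)
    have a5 := h2 t ht 5 (by norm_num) (by norm_num)
    by_cases hB : t ∈ B
    · rw [if_pos hB]; omega
    · rw [if_neg hB]
      have b1 := h3 t ht 3 4 (by norm_num) (by norm_num) (by norm_num) (by norm_num) (by norm_num)
      have b2 := h3 t ht 3 5 (by norm_num) (by norm_num) (by norm_num) (by norm_num) (by norm_num)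
      have b3 := h3 t ht 4 5 (by norm_num) (by norm_num) (by norm_num) (by norm_num) (by norm_num)
      by_contra hcon
      have : (0 < g t 3 ∧ 0 < g t 4) ∨ (0 < g t 3 ∧ 0 < g t 5) ∨ (0 < g t 4 ∧ 0 < g t 5) := by
        omega
      tauto
  have h5 : ∑ t ∈ range T, (if t ∈ B then 1 else 0) = B.card := by
    rw [← card_filter, filter_mem_eq_inter, inter_eq_right.2 (filter_subset _ _)]
  rw [sum_add_distrib, sum_add_distrib, sum_add_distrib, ← mul_sum, h5] at h4
  simp only [sum_const, card_range, smul_eq_mul, mul_one] at h4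
  have h6 : B.card ≤ {n : ℕ | 2 ≤ n ∧ n ≤ X ∧ ∀ m : ℕ, 2 ≤ m → m < n → P m ≠ P n}.ncard := by
    rw [← Set.ncard_coe_finset]
    refine Set.ncard_le_ncard_of_injOn (fun t => 10 * t + 4) ?_ ?_ ?_
    · intro t ht
      obtain ⟨a1, a2⟩ := mem_filter.1 ht
      have := mem_range.1 a1
      exact ⟨by omega, by omega, a2⟩
    · intro t _ t' _ h
      simpa using h
    · exact (Set.finite_Iic X).subset fun n hn => hn.2.1
  have := h1 3
  have := h1 4
  have := h1 5
  omega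

theorem positive_density : ∀ᶠ X : ℕ in atTop, (X : ℝ) / 1000 ≤
    ({n : ℕ | 2 ≤ n ∧ n ≤ X ∧ ∀ m : ℕ, 2 ≤ m → m < n → P m ≠ P n}.ncard : ℝ) := by
  obtain ⟨t0, ht0⟩ := range_lower
  have hlog : Tendsto (fun X : ℕ => Nat.log 2 X) atTop atTop :=
    tendsto_atTop_atTop.2 fun b => ⟨2 ^ b, fun _ h => Nat.le_log_of_pow_le (by norm_num) h⟩
  have hπ := tendsto_natCast_atTop_atTop.eventually
    (Chebyshev.eventually_primeCounting_le (ε := 1) one_pos)
  have hl2 := (Real.tendsto_log_atTop.comp tendsto_natCast_atTop_atTop).eventually_ge_atTop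
    (100000 * (Real.log 4 + 1))
  filter_upwards [hlog.eventually_ge_atTop (2 * t0 + 1000), hπ, hl2, eventually_ge_atTop 1000]
    with X h1 h2 h3 h4
  set b := Nat.log 2 X with hb
  set a := b / 2 + 2 with ha
  have hbX : 2 ^ b ≤ X := Nat.pow_log_le_self 2 (by omega)
  have hXb : X < 2 ^ (b + 1) := Nat.lt_pow_succ_log_self (by norm_num) X
  obtain ⟨d, hd⟩ : ∃ d, b = a + d := ⟨b - a, by omega⟩
  have hs := ht0 a (by omega) d
  rw [← hd] at hs
  set Q := (Ioc (2 ^ a) (2 ^ b)).filter Good with hQ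
  have h8 : 8 ≤ 2 ^ a := by
    calc 8 = 2 ^ 3 := rfl
      _ ≤ 2 ^ a := Nat.pow_le_pow_right (by norm_num) (by omega)
  have hm := count_main X Q
    (fun q hq => ⟨(mem_filter.1 hq).2, by
      have := (mem_Ioc.1 (mem_filter.1 hq).1).1
      omega⟩)
    (fun q hq q' hq' => by
      have a1 := (mem_Ioc.1 (mem_filter.1 hq).1).1
      have a2 := (mem_Ioc.1 (mem_filter.1 hq').1).1
      calc 4 * X + 4 ≤ 2 ^ 2 * 2 ^ (b + 1) := by omega
        _ = 2 ^ (b + 3) := by ring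
        _ ≤ 2 ^ (a + a) := Nat.pow_le_pow_right (by norm_num) (by omega)
        _ = 2 ^ a * 2 ^ a := pow_add _ _ _
        _ < q * q' := Nat.mul_lt_mul'' a1 a2)
  have hcard : Q.card ≤ Nat.primeCounting X := by
    rw [Nat.primeCounting, Nat.primeCounting', Nat.count_eq_card_filter_range]
    apply card_le_card
    intro q hq
    have := (mem_Ioc.1 (mem_filter.1 hq).1).2
    exact mem_filter.2 ⟨mem_range.2 (by omega), (mem_filter.1 hq).2.1⟩
  have hratio : (199 / 100 : ℝ) ≤ ((b : ℝ) + 1) / ((a : ℝ) + 1) := by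
    rw [le_div_iff₀ (by positivity)]
    have : 199 * (a + 1) ≤ 100 * (b + 1) := by omega
    have : (199 : ℝ) * (a + 1) ≤ 100 * (b + 1) := by exact_mod_cast this
    linarith
  clear h8 hbX hXb ht0
  have hlg : (0.688 : ℝ) ≤ Real.log (((b : ℝ) + 1) / ((a : ℝ) + 1)) := by
    refine le_trans ?_ (Real.log_le_log (by norm_num) hratio)
    rw [show (199 / 100 : ℝ) = 2 * (199 / 200) by norm_num, Real.log_mul (by norm_num) (by norm_num)]
    have := Real.one_sub_inv_le_log_of_pos (x := 199 / 200) (by norm_num)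
    have := Real.log_two_gt_d9
    norm_num at *
    linarith
  have hsum : ((X / 10 : ℕ) : ℝ) * ∑ q ∈ Q, (1 : ℝ) / q - Q.card ≤
      ((∑ q ∈ Q, X / 10 / q : ℕ) : ℝ) := by
    push_cast
    rw [mul_sum, card_eq_sum_ones, Nat.cast_sum, ← sum_sub_distrib]
    refine sum_le_sum fun q hq => ?_
    have q0 : 0 < q := (mem_filter.1 hq).2.1.pos
    have q1 : (0 : ℝ) < q := by exact_mod_cast q0
    have := Nat.lt_div_mul_add (a := X / 10) q0
    have h5 : ((X / 10 : ℕ) : ℝ) < ((X / 10 / q : ℕ) : ℝ) * q + q := by exact_mod_cast this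
    rw [mul_one_div, Nat.cast_one, sub_le_iff_le_add, div_le_iff₀ q1]
    linarith
  have hm' : 3 * ((∑ q ∈ Q, X / 10 / q : ℕ) : ℝ) ≤ ((X / 10 : ℕ) : ℝ) +
      2 * ({n : ℕ | 2 ≤ n ∧ n ≤ X ∧ ∀ m : ℕ, 2 ≤ m → m < n → P m ≠ P n}.ncard : ℝ) := by
    exact_mod_cast hm
  have hT : (X : ℝ) / 10 - 1 ≤ ((X / 10 : ℕ) : ℝ) := by
    have : X < 10 * (X / 10) + 10 := by omega
    have : (X : ℝ) < 10 * ((X / 10 : ℕ) : ℝ) + 10 := by exact_mod_cast this
    linarith
  have hX : (1000 : ℝ) ≤ X := by exact_mod_cast h4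
  have hc2 : (Q.card : ℝ) ≤ X / 100000 := by
    rw [Nat.floor_natCast] at h2
    have h5 : (Q.card : ℝ) ≤ Nat.primeCounting X := by exact_mod_cast hcard
    have h6 : 0 < Real.log 4 + 1 := by positivity
    simp only [Function.comp] at h3
    refine h5.trans (h2.trans ?_)
    rw [div_le_div_iff₀ (by linarith) (by norm_num)]
    nlinarith
  have hs2 : (0.343 : ℝ) ≤ ∑ q ∈ Q, (1 : ℝ) / q := by nlinarith
  have := mul_le_mul_of_nonneg_left hs2 (Nat.cast_nonneg (α := ℝ) (X / 10))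
  linarith

end Pool.Agent.P.MP_06afd2_nt
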